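import Pool.Agent.N566.VV.Defs
import Pool.Agent.H345J.Tasks
import Pool.Agent.H550R3.Jones.Ptr
import Pool.Agent.H559R3.J.Cross
import Pool.Agent.H973R3.J.TaskSchur

/-!
# Project VV (helper566), part SCH: the operator on the open strand is a scalar (helper93)
-/

set_option autoImplicit false
set_option linter.unusedSectionVars false

namespace Pool.Agent.N93.VV

open Pool.Agent.N566.VV
open Pool.Agent.H550R3.Jones (br brf Adm crossP crossN gen rep tail Gen WM IsMod IsInt irr tens W ptr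
  Rh Rhi TaskInt TaskInv TaskMod TaskCross TaskPtr TaskSchur)
open Matrix Finset
open scoped Kronecker

section gen

variable {ι κ μ : Type} [Fintype ι] [DecidableEq ι] [Fintype κ] [DecidableEq κ]
  [Fintype μ] [DecidableEq μ]

/-! ### intertwiners -/

lemma int_one (M : WM ι) : IsInt M M 1 where
  e := by rw [one_mul, mul_one]
  f := by rw [one_mul, mul_one]
  k i j h := by
    rw [Matrix.one_apply] at h
    split_ifs at h with h1
    · rw [h1]
    · exact absurd rfl h

lemma int_mul {M : WM ι} {A B : Matrix ι ι ℂ} (hA : IsInt M M A) (hB : IsInt M M B) :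
    IsInt M M (A * B) where
  e := by rw [mul_assoc, hB.e, ← mul_assoc, hA.e, mul_assoc]
  f := by rw [mul_assoc, hB.f, ← mul_assoc, hA.f, mul_assoc]
  k i j h := by
    rw [Matrix.mul_apply] at h
    obtain ⟨l, -, hl⟩ := Finset.exists_ne_zero_of_sum_ne_zero h
    exact (hA.k i l (left_ne_zero_of_mul hl)).trans (hB.k l j (right_ne_zero_of_mul hl))

lemma int_smul {M : WM ι} {A : Matrix ι ι ℂ} (hA : IsInt M M A) (c : ℂ) :
    IsInt M M (c • A) where
  e := by rw [Matrix.smul_mul, Matrix.mul_smul, hA.e]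
  f := by rw [Matrix.smul_mul, Matrix.mul_smul, hA.f]
  k i j h := hA.k i j (right_ne_zero_of_mul h)

lemma int_pow {M : WM ι} {A : Matrix ι ι ℂ} (hA : IsInt M M A) (n : ℕ) : IsInt M M (A ^ n) := by
  induction n with
  | zero => rw [pow_zero]; exact int_one M
  | succ n ih => rw [pow_succ]; exact int_mul ih hA

lemma int_K {M : WM ι} {A : Matrix ι ι ℂ} (hA : IsInt M M A) (v : ℂ) (e : ℤ) :
    A * M.K v e = M.K v e * A := by
  ext i j
  unfold WM.K
  rw [Matrix.mul_diagonal, Matrix.diagonal_mul]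
  by_cases h : A i j = 0
  · rw [h, zero_mul, mul_zero]
  · rw [hA.k i j h, mul_comm]

lemma int_kron {M : WM ι} {N : WM κ} (v : ℂ) {A : Matrix ι ι ℂ} {B : Matrix κ κ ℂ}
    (hA : IsInt M M A) (hB : IsInt N N B) : IsInt (tens v M N) (tens v M N) (A ⊗ₖ B) where
  e := by
    unfold tens
    simp only
    rw [mul_add, add_mul, ← mul_kronecker_mul, ← mul_kronecker_mul, ← mul_kronecker_mul,
      ← mul_kronecker_mul, hA.e, hB.e, int_K hB, mul_one, one_mul]
  f := by
    unfold tens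
    simp only
    rw [mul_add, add_mul, ← mul_kronecker_mul, ← mul_kronecker_mul, ← mul_kronecker_mul,
      ← mul_kronecker_mul, hA.f, hB.f, int_K hA, mul_one, one_mul]
  k i j h := by
    rw [kronecker_apply] at h
    show M.wt i.1 + N.wt i.2 = M.wt j.1 + N.wt j.2
    rw [hA.k _ _ (left_ne_zero_of_mul h), hB.k _ _ (right_ne_zero_of_mul h)]

/-! ### isomorphisms given by bijections of the bases -/

structure IsIso (e : ι ≃ κ) (M : WM ι) (N : WM κ) : Prop where
  wt : ∀ i, N.wt (e i) = M.wt i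
  E : N.E.submatrix e e = M.E
  F : N.F.submatrix e e = M.F

lemma IsIso.symm {e : ι ≃ κ} {M : WM ι} {N : WM κ} (h : IsIso e M N) : IsIso e.symm N M where
  wt i := by rw [← h.wt, Equiv.apply_symm_apply]
  E := by
    rw [← h.E, submatrix_submatrix]
    simp
  F := by
    rw [← h.F, submatrix_submatrix]
    simp

lemma int_iso {e : ι ≃ κ} {M : WM ι} {N : WM κ} (h : IsIso e M N) {B : Matrix κ κ ℂ}
    (hB : IsInt N N B) : IsInt M M (B.submatrix e e) where
  e := by rw [← h.E, submatrix_mul_equiv, submatrix_mul_equiv, hB.e]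
  f := by rw [← h.F, submatrix_mul_equiv, submatrix_mul_equiv, hB.f]
  k i j hij := by
    rw [← h.wt, ← h.wt]
    exact hB.k _ _ hij

lemma iso_assoc {v : ℂ} (hv : v ≠ 0) (M : WM ι) (N : WM κ) (L : WM μ) :
    IsIso (Equiv.prodAssoc ι κ μ) (tens v (tens v M N) L) (tens v M (tens v N L)) where
  wt i := by
    obtain ⟨⟨i, k⟩, l⟩ := i
    simp only [tens, Equiv.prodAssoc_apply]
    ring
  E := by
    ext ⟨⟨i, k⟩, l⟩ ⟨⟨i', k'⟩, l'⟩
    simp only [tens, submatrix_apply, Equiv.prodAssoc_apply, Matrix.add_apply, kronecker_apply,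
      WM.K, diagonal_apply, Matrix.one_apply, Prod.mk.injEq, one_mul]
    by_cases h1 : i = i' <;> by_cases h2 : k = k' <;> by_cases h3 : l = l' <;>
      simp [h1, h2, h3, mul_add, zpow_add₀ hv, mul_assoc]
    all_goals ring
  F := by
    ext ⟨⟨i, k⟩, l⟩ ⟨⟨i', k'⟩, l'⟩
    simp only [tens, submatrix_apply, Equiv.prodAssoc_apply, Matrix.add_apply, kronecker_apply,
      WM.K, diagonal_apply, Matrix.one_apply, Prod.mk.injEq, one_mul]
    by_cases h1 : i = i' <;> by_cases h2 : k = k' <;> by_cases h3 : l = l' <;>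
      simp [h1, h2, h3, mul_add, zpow_add₀ hv, mul_assoc]
    all_goals ring

end gen

/-! ### matrices on two strands as functions of four integers -/

section rot

variable {N : ℕ} (v : ℂ)

/-- the entries, zero outside the range -/
noncomputable def hat (A : Matrix (Fin N × Fin N) (Fin N × Fin N) ℂ) (a b c d : ℤ) : ℂ :=
  if h : ((0 ≤ a ∧ a < N) ∧ (0 ≤ b ∧ b < N)) ∧ ((0 ≤ c ∧ c < N) ∧ (0 ≤ d ∧ d < N)) then
    A (⟨a.toNat, by omega⟩, ⟨b.toNat, by omega⟩) (⟨c.toNat, by omega⟩, ⟨d.toNat, by omega⟩) else 0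

lemma hat_coe (A : Matrix (Fin N × Fin N) (Fin N × Fin N) ℂ) (a b c d : Fin N) :
    hat A (a : ℕ) (b : ℕ) (c : ℕ) (d : ℕ) = A (a, b) (c, d) := by
  unfold hat
  rw [dif_pos]
  · simp
  · have := a.2
    have := b.2
    have := c.2
    have := d.2
    omega

lemma hat_out (A : Matrix (Fin N × Fin N) (Fin N × Fin N) ℂ) {a b c d : ℤ}
    (h : ¬ (((0 ≤ a ∧ a < N) ∧ (0 ≤ b ∧ b < N)) ∧ ((0 ≤ c ∧ c < N) ∧ (0 ≤ d ∧ d < N)))) :
    hat A a b c d = 0 := by
  unfold hat
  rw [dif_neg h]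

lemma sumE_col (g : ℤ → ℂ) (hg : g (-1) = 0) (c : Fin N) :
    ∑ i : Fin N, g (i : ℕ) * (irr v N).E i c = g (((c : ℕ) : ℤ) - 1) * br v ((N : ℤ) - (c : ℕ)) := by
  by_cases h0 : (c : ℕ) = 0
  · rw [h0]
    push_cast
    rw [hg, zero_mul]
    refine Finset.sum_eq_zero fun i _ => ?_
    simp only [irr]
    rw [if_neg (by omega), mul_zero]
  · rw [Finset.sum_eq_single (⟨(c : ℕ) - 1, by omega⟩ : Fin N)]
    · simp only [irr]
      rw [if_pos (by omega)]
      congr 2
      omega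
    · intro i _ hi
      simp only [irr]
      rw [if_neg, mul_zero]
      intro h
      apply hi
      ext
      simp only
      omega
    · intro h
      exact absurd (Finset.mem_univ _) h

lemma sumE_row (g : ℤ → ℂ) (hg : g N = 0) (a : Fin N) :
    ∑ i : Fin N, (irr v N).E a i * g (i : ℕ) =
      br v ((N : ℤ) - (((a : ℕ) : ℤ) + 1)) * g (((a : ℕ) : ℤ) + 1) := by
  by_cases h0 : (a : ℕ) + 1 = N
  · have h1 : ((a : ℕ) : ℤ) + 1 = N := by omega
    rw [h1, hg, mul_zero]
    refine Finset.sum_eq_zero fun i _ => ?_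
    simp only [irr]
    rw [if_neg (by omega), zero_mul]
  · rw [Finset.sum_eq_single (⟨(a : ℕ) + 1, by omega⟩ : Fin N)]
    · simp only [irr]
      rw [if_pos trivial]
      push_cast
      rfl
    · intro i _ hi
      simp only [irr]
      rw [if_neg, zero_mul]
      intro h
      apply hi
      ext
      simp only
      omega
    · intro h
      exact absurd (Finset.mem_univ _) h

lemma sumF_col (g : ℤ → ℂ) (hg : g N = 0) (c : Fin N) :
    ∑ i : Fin N, g (i : ℕ) * (irr v N).F i c =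
      g (((c : ℕ) : ℤ) + 1) * br v (((c : ℕ) : ℤ) + 1) := by
  by_cases h0 : (c : ℕ) + 1 = N
  · have h1 : ((c : ℕ) : ℤ) + 1 = N := by omega
    rw [h1, hg, zero_mul]
    refine Finset.sum_eq_zero fun i _ => ?_
    simp only [irr]
    rw [if_neg (by omega), mul_zero]
  · rw [Finset.sum_eq_single (⟨(c : ℕ) + 1, by omega⟩ : Fin N)]
    · simp only [irr]
      rw [if_pos trivial]
      push_cast
      rfl
    · intro i _ hi
      simp only [irr]
      rw [if_neg, mul_zero]
      intro h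
      apply hi
      ext
      simp only
      omega
    · intro h
      exact absurd (Finset.mem_univ _) h

lemma sumF_row (g : ℤ → ℂ) (hg : g (-1) = 0) (a : Fin N) :
    ∑ i : Fin N, (irr v N).F a i * g (i : ℕ) =
      br v ((a : ℕ) : ℤ) * g (((a : ℕ) : ℤ) - 1) := by
  by_cases h0 : (a : ℕ) = 0
  · rw [h0]
    push_cast
    rw [hg, mul_zero]
    refine Finset.sum_eq_zero fun i _ => ?_
    simp only [irr]
    rw [if_neg (by omega), zero_mul]
  · rw [Finset.sum_eq_single (⟨(a : ℕ) - 1, by omega⟩ : Fin N)]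
    · simp only [irr]
      rw [if_pos (by omega)]
      congr 2
      omega
    · intro i _ hi
      simp only [irr]
      rw [if_neg, zero_mul]
      intro h
      apply hi
      ext
      simp only
      omega
    · intro h
      exact absurd (Finset.mem_univ _) h

lemma mulE (A : Matrix (Fin N × Fin N) (Fin N × Fin N) ℂ) (a b c d : Fin N) :
    (A * (tens v (irr v N) (irr v N)).E) (a, b) (c, d) =
      hat A (a : ℕ) (b : ℕ) (((c : ℕ) : ℤ) - 1) (d : ℕ) * br v ((N : ℤ) - (c : ℕ)) *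
        v ^ ((N : ℤ) - 1 - 2 * (d : ℕ)) +
      hat A (a : ℕ) (b : ℕ) (c : ℕ) (((d : ℕ) : ℤ) - 1) * br v ((N : ℤ) - (d : ℕ)) := by
  rw [← sumE_col v (fun x => hat A (a : ℕ) (b : ℕ) x (d : ℕ)) (hat_out A (by omega)) c,
    ← sumE_col v (fun x => hat A (a : ℕ) (b : ℕ) (c : ℕ) x) (hat_out A (by omega)) d,
    Matrix.mul_apply, Fintype.sum_prod_type]
  simp only [tens, Matrix.add_apply, kronecker_apply, WM.K, diagonal_apply, Matrix.one_apply,
    mul_add, Finset.sum_add_distrib]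
  congr 1
  · rw [Finset.sum_mul]
    refine Finset.sum_congr rfl fun i _ => ?_
    rw [Finset.sum_eq_single d]
    · rw [if_pos rfl, hat_coe, one_mul]
      simp only [irr]
      ring
    · intro j _ hj
      rw [if_neg hj, mul_zero, mul_zero]
    · intro h
      exact absurd (Finset.mem_univ _) h
  · rw [Finset.sum_eq_single c]
    · refine Finset.sum_congr rfl fun j _ => ?_
      rw [if_pos rfl, hat_coe, one_mul]
    · intro i _ hi
      refine Finset.sum_eq_zero fun j _ => ?_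
      rw [if_neg hi, zero_mul, mul_zero]
    · intro h
      exact absurd (Finset.mem_univ _) h

lemma Emul (A : Matrix (Fin N × Fin N) (Fin N × Fin N) ℂ) (a b c d : Fin N) :
    ((tens v (irr v N) (irr v N)).E * A) (a, b) (c, d) =
      br v ((N : ℤ) - (((a : ℕ) : ℤ) + 1)) * v ^ ((N : ℤ) - 1 - 2 * (b : ℕ)) *
        hat A (((a : ℕ) : ℤ) + 1) (b : ℕ) (c : ℕ) (d : ℕ) +
      br v ((N : ℤ) - (((b : ℕ) : ℤ) + 1)) * hat A (a : ℕ) (((b : ℕ) : ℤ) + 1) (c : ℕ) (d : ℕ) := by
  have e1 := sumE_row v (fun x => hat A x (b : ℕ) (c : ℕ) (d : ℕ)) (hat_out A (by omega)) a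
  have e2 := sumE_row v (fun x => hat A (a : ℕ) x (c : ℕ) (d : ℕ)) (hat_out A (by omega)) b
  rw [← e2, mul_right_comm, ← e1, Matrix.mul_apply, Fintype.sum_prod_type]
  simp only [tens, Matrix.add_apply, kronecker_apply, WM.K, diagonal_apply, Matrix.one_apply,
    add_mul, Finset.sum_add_distrib]
  congr 1
  · rw [Finset.sum_mul]
    refine Finset.sum_congr rfl fun i _ => ?_
    rw [Finset.sum_eq_single b]
    · rw [if_pos rfl, hat_coe, one_mul]
      simp only [irr]
      ring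
    · intro j _ hj
      rw [if_neg (Ne.symm hj), mul_zero, zero_mul]
    · intro h
      exact absurd (Finset.mem_univ _) h
  · rw [Finset.sum_eq_single a]
    · refine Finset.sum_congr rfl fun j _ => ?_
      rw [if_pos rfl, hat_coe, one_mul]
    · intro i _ hi
      refine Finset.sum_eq_zero fun j _ => ?_
      rw [if_neg (Ne.symm hi), zero_mul, zero_mul]
    · intro h
      exact absurd (Finset.mem_univ _) h

lemma mulF (A : Matrix (Fin N × Fin N) (Fin N × Fin N) ℂ) (a b c d : Fin N) :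
    (A * (tens v (irr v N) (irr v N)).F) (a, b) (c, d) =
      hat A (a : ℕ) (b : ℕ) (((c : ℕ) : ℤ) + 1) (d : ℕ) * br v (((c : ℕ) : ℤ) + 1) +
      hat A (a : ℕ) (b : ℕ) (c : ℕ) (((d : ℕ) : ℤ) + 1) * br v (((d : ℕ) : ℤ) + 1) *
        v ^ (-((N : ℤ) - 1 - 2 * (c : ℕ))) := by
  rw [← sumF_col v (fun x => hat A (a : ℕ) (b : ℕ) x (d : ℕ)) (hat_out A (by omega)) c,
    ← sumF_col v (fun x => hat A (a : ℕ) (b : ℕ) (c : ℕ) x) (hat_out A (by omega)) d,
    Matrix.mul_apply, Fintype.sum_prod_type]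
  simp only [tens, Matrix.add_apply, kronecker_apply, WM.K, diagonal_apply, Matrix.one_apply,
    mul_add, Finset.sum_add_distrib]
  congr 1
  · refine Finset.sum_congr rfl fun i _ => ?_
    rw [Finset.sum_eq_single d]
    · rw [if_pos rfl, hat_coe, mul_one]
    · intro j _ hj
      rw [if_neg hj, mul_zero, mul_zero]
    · intro h
      exact absurd (Finset.mem_univ _) h
  · rw [Finset.sum_eq_single c]
    · rw [Finset.sum_mul]
      refine Finset.sum_congr rfl fun j _ => ?_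
      rw [if_pos rfl, hat_coe, neg_one_mul]
      simp only [irr]
      ring
    · intro i _ hi
      refine Finset.sum_eq_zero fun j _ => ?_
      rw [if_neg hi, zero_mul, mul_zero]
    · intro h
      exact absurd (Finset.mem_univ _) h

lemma Fmul (A : Matrix (Fin N × Fin N) (Fin N × Fin N) ℂ) (a b c d : Fin N) :
    ((tens v (irr v N) (irr v N)).F * A) (a, b) (c, d) =
      br v ((a : ℕ) : ℤ) * hat A (((a : ℕ) : ℤ) - 1) (b : ℕ) (c : ℕ) (d : ℕ) +
      br v ((b : ℕ) : ℤ) * hat A (a : ℕ) (((b : ℕ) : ℤ) - 1) (c : ℕ) (d : ℕ) *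
        v ^ (-((N : ℤ) - 1 - 2 * (a : ℕ))) := by
  have e1 := sumF_row v (fun x => hat A x (b : ℕ) (c : ℕ) (d : ℕ)) (hat_out A (by omega)) a
  have e2 := sumF_row v (fun x => hat A (a : ℕ) x (c : ℕ) (d : ℕ)) (hat_out A (by omega)) b
  rw [← e2, ← e1, Matrix.mul_apply, Fintype.sum_prod_type]
  simp only [tens, Matrix.add_apply, kronecker_apply, WM.K, diagonal_apply, Matrix.one_apply,
    add_mul, Finset.sum_add_distrib]
  congr 1
  · refine Finset.sum_congr rfl fun i _ => ?_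
    rw [Finset.sum_eq_single b]
    · rw [if_pos rfl, hat_coe, mul_one]
    · intro j _ hj
      rw [if_neg (Ne.symm hj), mul_zero, zero_mul]
    · intro h
      exact absurd (Finset.mem_univ _) h
  · rw [Finset.sum_eq_single a]
    · rw [Finset.sum_mul]
      refine Finset.sum_congr rfl fun j _ => ?_
      rw [if_pos rfl, hat_coe, neg_one_mul]
      simp only [irr]
      ring
    · intro i _ hi
      refine Finset.sum_eq_zero fun j _ => ?_
      rw [if_neg (Ne.symm hi), zero_mul, zero_mul]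
    · intro h
      exact absurd (Finset.mem_univ _) h

/-- the relations -/
structure Rel (N : ℕ) (v : ℂ) (H : ℤ → ℤ → ℤ → ℤ → ℂ) : Prop where
  e : ∀ a b c d : ℤ, 0 ≤ a → a < N → 0 ≤ b → b < N → 0 ≤ c → c < N → 0 ≤ d → d < N →
    H a b (c - 1) d * br v ((N : ℤ) - c) * v ^ ((N : ℤ) - 1 - 2 * d) +
      H a b c (d - 1) * br v ((N : ℤ) - d) =
    br v ((N : ℤ) - (a + 1)) * v ^ ((N : ℤ) - 1 - 2 * b) * H (a + 1) b c d +
      br v ((N : ℤ) - (b + 1)) * H a (b + 1) c d
  f : ∀ a b c d : ℤ, 0 ≤ a → a < N → 0 ≤ b → b < N → 0 ≤ c → c < N → 0 ≤ d → d < N →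
    H a b (c + 1) d * br v (c + 1) + H a b c (d + 1) * br v (d + 1) *
        v ^ (-((N : ℤ) - 1 - 2 * c)) =
    br v a * H (a - 1) b c d + br v b * H a (b - 1) c d * v ^ (-((N : ℤ) - 1 - 2 * a))
  k : ∀ a b c d : ℤ, H a b c d ≠ 0 → a + b = c + d

lemma rel_of_int {A : Matrix (Fin N × Fin N) (Fin N × Fin N) ℂ}
    (hA : IsInt (tens v (irr v N) (irr v N)) (tens v (irr v N) (irr v N)) A) :
    Rel N v (hat A) where
  e a b c d ha ha' hb hb' hc hc' hd hd' := by
    obtain ⟨a, rfl⟩ := Int.eq_ofNat_of_zero_le ha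
    obtain ⟨b, rfl⟩ := Int.eq_ofNat_of_zero_le hb
    obtain ⟨c, rfl⟩ := Int.eq_ofNat_of_zero_le hc
    obtain ⟨d, rfl⟩ := Int.eq_ofNat_of_zero_le hd
    have h1 := mulE v A ⟨a, by omega⟩ ⟨b, by omega⟩ ⟨c, by omega⟩ ⟨d, by omega⟩
    have h2 := Emul v A ⟨a, by omega⟩ ⟨b, by omega⟩ ⟨c, by omega⟩ ⟨d, by omega⟩
    rw [hA.e] at h1
    exact h1.symm.trans h2
  f a b c d ha ha' hb hb' hc hc' hd hd' := by
    obtain ⟨a, rfl⟩ := Int.eq_ofNat_of_zero_le ha
    obtain ⟨b, rfl⟩ := Int.eq_ofNat_of_zero_le hb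
    obtain ⟨c, rfl⟩ := Int.eq_ofNat_of_zero_le hc
    obtain ⟨d, rfl⟩ := Int.eq_ofNat_of_zero_le hd
    have h1 := mulF v A ⟨a, by omega⟩ ⟨b, by omega⟩ ⟨c, by omega⟩ ⟨d, by omega⟩
    have h2 := Fmul v A ⟨a, by omega⟩ ⟨b, by omega⟩ ⟨c, by omega⟩ ⟨d, by omega⟩
    rw [hA.f] at h1
    exact h1.symm.trans h2
  k a b c d h := by
    unfold hat at h
    split_ifs at h with hr
    · have h1 := hA.k _ _ h
      simp only [tens, irr] at h1
      omega
    · exact absurd rfl h

lemma int_of_rel {A : Matrix (Fin N × Fin N) (Fin N × Fin N) ℂ} (h : Rel N v (hat A)) :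
    IsInt (tens v (irr v N) (irr v N)) (tens v (irr v N) (irr v N)) A where
  e := by
    ext ⟨a, b⟩ ⟨c, d⟩
    rw [mulE, Emul]
    have := a.2
    have := b.2
    have := c.2
    have := d.2
    exact h.e _ _ _ _ (by omega) (by omega) (by omega) (by omega) (by omega) (by omega)
      (by omega) (by omega)
  f := by
    ext ⟨a, b⟩ ⟨c, d⟩
    rw [mulF, Fmul]
    have := a.2
    have := b.2
    have := c.2
    have := d.2
    exact h.f _ _ _ _ (by omega) (by omega) (by omega) (by omega) (by omega) (by omega)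
      (by omega) (by omega)
  k i j hij := by
    obtain ⟨a, b⟩ := i
    obtain ⟨c, d⟩ := j
    have h0 := hat_coe A a b c d
    rw [← h0] at hij
    have h1 := h.k _ _ _ _ hij
    simp only [tens, irr]
    omega

lemma cup_succ (hv : v ≠ 0) {j : ℕ} (hj : j + 1 < N) :
    cup N v (j + 1) * br v ((N : ℤ) - ((j : ℤ) + 1)) =
      -(v ^ ((N : ℤ) - 1 - 2 * ((j : ℤ) + 1)) * br v ((j : ℤ) + 1) * cup N v j) := by
  have h1 : brf v (j + 1) = brf v j * br v ((j : ℤ) + 1) := by
    unfold brf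
    rw [Finset.prod_range_succ]
  have h2 : brf v (N - 1 - j) = brf v (N - 1 - (j + 1)) * br v ((N : ℤ) - ((j : ℤ) + 1)) := by
    obtain ⟨k, hk⟩ : ∃ k, N - 1 - j = k + 1 := ⟨N - 1 - (j + 1), by omega⟩
    have hk2 : N - 1 - (j + 1) = k := by omega
    have hk3 : (N : ℤ) - ((j : ℤ) + 1) = (k : ℤ) + 1 := by omega
    rw [hk, hk2, hk3]
    unfold brf
    rw [Finset.prod_range_succ]
  have h3 : v ^ ((((j + 1 : ℕ) : ℤ)) * ((N : ℤ) - 2 - ((j + 1 : ℕ) : ℤ))) =
      v ^ ((j : ℤ) * ((N : ℤ) - 2 - (j : ℤ))) * v ^ ((N : ℤ) - 1 - 2 * ((j : ℤ) + 1)) := by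
    rw [← zpow_add₀ hv]
    congr 1
    push_cast
    ring
  unfold cup
  rw [h1, h2, h3, pow_succ]
  ring

lemma brf_ne (hb : ∀ n : ℕ, 0 < n → br v n ≠ 0) (n : ℕ) : brf v n ≠ 0 := by
  unfold brf
  refine Finset.prod_ne_zero_iff.2 fun j _ => ?_
  have := hb (j + 1) (by omega)
  push_cast at this
  exact this

lemma cup_ne (hv : v ≠ 0) (hb : ∀ n : ℕ, 0 < n → br v n ≠ 0) (j : ℕ) : cup N v j ≠ 0 := by
  unfold cup
  exact mul_ne_zero (mul_ne_zero (pow_ne_zero _ (by norm_num)) (mul_ne_zero (brf_ne v hb _)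
    (brf_ne v hb _))) (zpow_ne_zero _ hv)

lemma br_zero : br v 0 = 0 := by
  unfold br
  simp

/-- the identity of the cups, over the integers -/
lemma cup_id (hv : v ≠ 0) {d : ℤ} (h1 : 1 ≤ d) (h2 : d < N) :
    cup N v d.toNat * br v ((N : ℤ) - d) =
      -(v ^ ((N : ℤ) - 1 - 2 * d) * br v d * cup N v (d - 1).toNat) := by
  obtain ⟨j, hj⟩ : ∃ j : ℕ, d = (j : ℤ) + 1 := ⟨(d - 1).toNat, by omega⟩
  have h3 := cup_succ (N := N) v hv (j := j) (by omega)
  have h4 : d.toNat = j + 1 := by omega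
  have h5 : (d - 1).toNat = j := by omega
  rw [h4, h5, hj]
  exact h3

lemma hat_rot (A : Matrix (Fin N × Fin N) (Fin N × Fin N) ℂ) (a b c d : ℤ) :
    hat (rot N v A) a b c d = cup N v a.toNat / cup N v d.toNat *
      hat A b ((N : ℤ) - 1 - d) ((N : ℤ) - 1 - a) c := by
  by_cases h : ((0 ≤ a ∧ a < N) ∧ (0 ≤ b ∧ b < N)) ∧ ((0 ≤ c ∧ c < N) ∧ (0 ≤ d ∧ d < N))
  · unfold hat
    rw [dif_pos h, dif_pos (by omega)]
    unfold rot
    simp only
    congr 3
    · ext
      simp only [Fin.val_rev]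
      omega
    · ext
      simp only [Fin.val_rev]
      omega
  · rw [hat_out _ h, hat_out _ (by omega), mul_zero]

/-- rotations preserve intertwiners -/
lemma int_rot (hv : v ≠ 0) (hb : ∀ n : ℕ, 0 < n → br v n ≠ 0)
    {A : Matrix (Fin N × Fin N) (Fin N × Fin N) ℂ}
    (hA : IsInt (tens v (irr v N) (irr v N)) (tens v (irr v N) (irr v N)) A) :
    IsInt (tens v (irr v N) (irr v N)) (tens v (irr v N) (irr v N)) (rot N v A) := by
  have hR := rel_of_int v hA
  have hc : ∀ j : ℕ, cup N v j ≠ 0 := cup_ne v hv hb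
  apply int_of_rel
  refine ⟨?_, ?_, ?_⟩
  · intro a b c d ha ha' hb hb' hc1 hc1' hd hd'
    simp only [hat_rot]
    have hE := hR.e b ((N : ℤ) - 1 - d) ((N : ℤ) - 1 - a) c hb hb' (by omega) (by omega) (by omega)
      (by omega) hc1 hc1'
    have i1 : (N : ℤ) - ((N : ℤ) - 1 - a) = a + 1 := by ring
    have i2 : (N : ℤ) - ((N : ℤ) - 1 - d + 1) = d := by ring
    have i3 : (N : ℤ) - 1 - (d - 1) = (N : ℤ) - 1 - d + 1 := by ring
    have i4 : (N : ℤ) - 1 - (a + 1) = (N : ℤ) - 1 - a - 1 := by ring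
    rw [i1, i2] at hE
    rw [i3, i4]
    have hpow : v ^ ((N : ℤ) - 1 - 2 * ((N : ℤ) - 1 - d)) * v ^ ((N : ℤ) - 1 - 2 * d) = 1 := by
      rw [← zpow_add₀ hv]
      have : (N : ℤ) - 1 - 2 * ((N : ℤ) - 1 - d) + ((N : ℤ) - 1 - 2 * d) = 0 := by ring
      rw [this, zpow_zero]
    have hX : cup N v d.toNat * br v ((N : ℤ) - d) *
        hat A b ((N : ℤ) - 1 - d + 1) ((N : ℤ) - 1 - a) c =
        -(v ^ ((N : ℤ) - 1 - 2 * d) * br v d * cup N v (d - 1).toNat *
          hat A b ((N : ℤ) - 1 - d + 1) ((N : ℤ) - 1 - a) c) := by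
      by_cases h0 : d = 0
      · rw [hat_out A (by omega)]
        ring
      · rw [cup_id v hv (by omega) hd']
        ring
    have hY : cup N v (a + 1).toNat * br v ((N : ℤ) - (a + 1)) * v ^ ((N : ℤ) - 1 - 2 * b) *
        hat A b ((N : ℤ) - 1 - d) ((N : ℤ) - 1 - a - 1) c =
        -(cup N v a.toNat * br v (a + 1) * (v ^ ((N : ℤ) - 1 - 2 * c) *
          v ^ ((N : ℤ) - 1 - 2 * d)) *
          hat A b ((N : ℤ) - 1 - d) ((N : ℤ) - 1 - a - 1) c) := by
      by_cases h0 : a + 1 = N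
      · rw [hat_out A (by omega)]
        ring
      · by_cases h1 : hat A b ((N : ℤ) - 1 - d) ((N : ℤ) - 1 - a - 1) c = 0
        · rw [h1]
          ring
        · have h2 := hR.k _ _ _ _ h1
          have h3 : v ^ ((N : ℤ) - 1 - 2 * (a + 1)) * v ^ ((N : ℤ) - 1 - 2 * b) =
              v ^ ((N : ℤ) - 1 - 2 * c) * v ^ ((N : ℤ) - 1 - 2 * d) := by
            rw [← zpow_add₀ hv, ← zpow_add₀ hv]
            congr 1
            omega
          rw [cup_id v hv (by omega) (by omega), ← h3, add_sub_cancel_right]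
          ring
    have hd0 := hc d.toNat
    have hd1 := hc (d - 1).toNat
    generalize hat A b ((N : ℤ) - 1 - d + 1) ((N : ℤ) - 1 - a) c = X at *
    generalize hat A b ((N : ℤ) - 1 - d) ((N : ℤ) - 1 - a - 1) c = Y at *
    generalize hat A b ((N : ℤ) - 1 - d) ((N : ℤ) - 1 - a) (c - 1) = U at *
    generalize hat A (b + 1) ((N : ℤ) - 1 - d) ((N : ℤ) - 1 - a) c = Z at *
    generalize cup N v d.toNat = C0 at *
    generalize cup N v (d - 1).toNat = C1 at *
    generalize cup N v a.toNat = Ca at *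
    generalize cup N v (a + 1).toNat = Cb at *
    generalize v ^ ((N : ℤ) - 1 - 2 * d) = p at *
    generalize v ^ ((N : ℤ) - 1 - 2 * ((N : ℤ) - 1 - d)) = p' at *
    generalize v ^ ((N : ℤ) - 1 - 2 * c) = q at *
    generalize v ^ ((N : ℤ) - 1 - 2 * b) = r at *
    generalize br v ((N : ℤ) - d) = k1 at *
    generalize br v d = k2 at *
    generalize br v (a + 1) = k3 at *
    generalize br v ((N : ℤ) - (a + 1)) = k4 at *
    generalize br v ((N : ℤ) - (b + 1)) = k5 at *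
    generalize br v ((N : ℤ) - c) = k6 at *
    field_simp
    linear_combination (Ca * C1 * p) * hE + Ca * hX - C1 * hY + (Ca * C1 * k5 * Z) * hpow
  · intro a b c d ha ha' hb hb' hc1 hc1' hd hd'
    simp only [hat_rot]
    have hF := hR.f b ((N : ℤ) - 1 - d) ((N : ℤ) - 1 - a) c hb hb' (by omega) (by omega) (by omega)
      (by omega) hc1 hc1'
    have i1 : (N : ℤ) - 1 - a + 1 = (N : ℤ) - a := by ring
    have i3 : (N : ℤ) - 1 - (d + 1) = (N : ℤ) - 1 - d - 1 := by ring
    have i4 : (N : ℤ) - 1 - (a - 1) = (N : ℤ) - a := by ring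
    rw [i1] at hF
    rw [i3, i4]
    have hpow : v ^ (-((N : ℤ) - 1 - 2 * ((N : ℤ) - 1 - a))) * v ^ (-((N : ℤ) - 1 - 2 * a)) = 1 := by
      rw [← zpow_add₀ hv]
      have : -((N : ℤ) - 1 - 2 * ((N : ℤ) - 1 - a)) + -((N : ℤ) - 1 - 2 * a) = 0 := by ring
      rw [this, zpow_zero]
    have hX : br v a * cup N v (a - 1).toNat * hat A b ((N : ℤ) - 1 - d) ((N : ℤ) - a) c =
        -(v ^ (-((N : ℤ) - 1 - 2 * a)) * cup N v a.toNat * br v ((N : ℤ) - a) *
          hat A b ((N : ℤ) - 1 - d) ((N : ℤ) - a) c) := by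
      by_cases h0 : a = 0
      · rw [hat_out A (by omega)]
        ring
      · have h1 := cup_id (N := N) v hv (d := a) (by omega) ha'
        have h2 : v ^ (-((N : ℤ) - 1 - 2 * a)) * v ^ ((N : ℤ) - 1 - 2 * a) = 1 := by
          rw [← zpow_add₀ hv, neg_add_cancel, zpow_zero]
        linear_combination (v ^ (-((N : ℤ) - 1 - 2 * a)) *
          hat A b ((N : ℤ) - 1 - d) ((N : ℤ) - a) c) * h1 -
          (br v a * cup N v (a - 1).toNat * hat A b ((N : ℤ) - 1 - d) ((N : ℤ) - a) c) * h2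
    have hY : v ^ (-((N : ℤ) - 1 - 2 * c)) * br v (d + 1) * cup N v d.toNat *
        hat A b ((N : ℤ) - 1 - d - 1) ((N : ℤ) - 1 - a) c =
        -(v ^ (-((N : ℤ) - 1 - 2 * a)) * v ^ (-((N : ℤ) - 1 - 2 * b)) *
          br v ((N : ℤ) - 1 - d) * cup N v (d + 1).toNat *
          hat A b ((N : ℤ) - 1 - d - 1) ((N : ℤ) - 1 - a) c) := by
      by_cases h0 : d + 1 = N
      · rw [hat_out A (by omega)]
        ring
      · by_cases h1 : hat A b ((N : ℤ) - 1 - d - 1) ((N : ℤ) - 1 - a) c = 0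
        · rw [h1]
          ring
        · have h2 := hR.k _ _ _ _ h1
          have h3 := cup_id (N := N) v hv (d := d + 1) (by omega) (by omega)
          rw [add_sub_cancel_right] at h3
          have h4 : v ^ (-((N : ℤ) - 1 - 2 * a)) * v ^ (-((N : ℤ) - 1 - 2 * b)) *
              v ^ ((N : ℤ) - 1 - 2 * (d + 1)) = v ^ (-((N : ℤ) - 1 - 2 * c)) := by
            rw [← zpow_add₀ hv, ← zpow_add₀ hv]
            congr 1
            omega
          have h5 : (N : ℤ) - (d + 1) = (N : ℤ) - 1 - d := by ring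
          rw [h5] at h3
          rw [← h4]
          linear_combination (v ^ (-((N : ℤ) - 1 - 2 * a)) * v ^ (-((N : ℤ) - 1 - 2 * b)) *
            hat A b ((N : ℤ) - 1 - d - 1) ((N : ℤ) - 1 - a) c) * h3
    have hd0 := hc d.toNat
    have hd1 := hc (d + 1).toNat
    generalize hat A b ((N : ℤ) - 1 - d - 1) ((N : ℤ) - 1 - a) c = Y at *
    generalize hat A b ((N : ℤ) - 1 - d) ((N : ℤ) - a) c = X at *
    generalize hat A b ((N : ℤ) - 1 - d) ((N : ℤ) - 1 - a) (c + 1) = U at *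
    generalize hat A (b - 1) ((N : ℤ) - 1 - d) ((N : ℤ) - 1 - a) c = Z at *
    generalize cup N v d.toNat = C0 at *
    generalize cup N v (d + 1).toNat = C1 at *
    generalize cup N v a.toNat = Ca at *
    generalize cup N v (a - 1).toNat = Cb at *
    generalize v ^ (-((N : ℤ) - 1 - 2 * a)) = p at *
    generalize v ^ (-((N : ℤ) - 1 - 2 * ((N : ℤ) - 1 - a))) = p' at *
    generalize v ^ (-((N : ℤ) - 1 - 2 * c)) = q at *
    generalize v ^ (-((N : ℤ) - 1 - 2 * b)) = r at *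
    generalize br v ((N : ℤ) - a) = k1 at *
    generalize br v a = k2 at *
    generalize br v (d + 1) = k3 at *
    generalize br v ((N : ℤ) - 1 - d) = k4 at *
    generalize br v b = k5 at *
    generalize br v (c + 1) = k6 at *
    field_simp
    linear_combination (Ca * C1 * p) * hF - C1 * hX + Ca * hY - (Ca * C1 * k6 * U) * hpow
  · intro a b c d h
    rw [hat_rot] at h
    have h1 := hR.k _ _ _ _ (right_ne_zero_of_mul h)
    omega

end rot

/-! ### three strands -/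

section three

variable {N : ℕ} {v : ℂ}

/-- the module `V ⊗ (V ⊗ V)` -/
noncomputable abbrev W3 (v : ℂ) (N : ℕ) : WM (Fin N × (Fin N × Fin N)) :=
  tens v (irr v N) (tens v (irr v N) (irr v N))

lemma int_on23 {A : Matrix (Fin N × Fin N) (Fin N × Fin N) ℂ}
    (hA : IsInt (tens v (irr v N) (irr v N)) (tens v (irr v N) (irr v N)) A) :
    IsInt (W3 v N) (W3 v N) (on23 A) := by
  have h := int_kron v (int_one (irr v N)) hA
  have e : on23 A = (1 : Matrix (Fin N) (Fin N) ℂ) ⊗ₖ A := by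
    ext ⟨a, b⟩ ⟨c, d⟩
    simp only [on23, kronecker_apply, Matrix.one_apply]
    split_ifs <;> simp
  rw [e]
  exact h

lemma int_on12 (hv : v ≠ 0) {A : Matrix (Fin N × Fin N) (Fin N × Fin N) ℂ}
    (hA : IsInt (tens v (irr v N) (irr v N)) (tens v (irr v N) (irr v N)) A) :
    IsInt (W3 v N) (W3 v N) (on12 A) := by
  have h := int_iso (iso_assoc hv (irr v N) (irr v N) (irr v N)).symm
    (int_kron v hA (int_one (irr v N)))
  have e : on12 A = (A ⊗ₖ (1 : Matrix (Fin N) (Fin N) ℂ)).submatrix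
      (Equiv.prodAssoc (Fin N) (Fin N) (Fin N)).symm
      (Equiv.prodAssoc (Fin N) (Fin N) (Fin N)).symm := by
    ext ⟨a, b, c⟩ ⟨a', b', c'⟩
    simp only [on12, submatrix_apply, Equiv.prodAssoc_symm_apply, kronecker_apply,
      Matrix.one_apply]
    split_ifs <;> simp
  rw [e]
  exact h

/-- the bijection of the bases -/
def e3 (N : ℕ) : (Fin 3 → Fin N) ≃ Fin N × (Fin N × Fin N) where
  toFun s := (s 0, (s 1, s 2))
  invFun p := ![p.1, p.2.1, p.2.2]
  left_inv s := by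
    funext i
    fin_cases i <;> rfl
  right_inv p := rfl

lemma gen0 (A : Matrix (Fin N × Fin N) (Fin N × Fin N) ℂ) :
    gen A 3 0 = (on12 A).submatrix (e3 N) (e3 N) := by
  ext s t
  simp only [gen, submatrix_apply, e3, Equiv.coe_fn_mk, on12]
  rw [dif_pos (by norm_num)]
  refine if_congr ?_ rfl rfl
  constructor
  · intro h
    exact h 2 (by decide) (by decide)
  · intro h j h0 h1
    fin_cases j
    · exact absurd rfl h0
    · exact absurd rfl h1
    · exact h

lemma gen1 (A : Matrix (Fin N × Fin N) (Fin N × Fin N) ℂ) :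
    gen A 3 1 = (on23 A).submatrix (e3 N) (e3 N) := by
  ext s t
  simp only [gen, submatrix_apply, e3, Equiv.coe_fn_mk, on23]
  rw [dif_pos (by norm_num)]
  refine if_congr ?_ rfl rfl
  constructor
  · intro h
    exact h 0 (by decide) (by decide)
  · intro h j h0 h1
    fin_cases j
    · exact h
    · exact absurd rfl h0
    · exact absurd rfl h1

/-- intertwiners on three strands -/
def Good (v : ℂ) (N : ℕ) (X : Matrix (Fin 3 → Fin N) (Fin 3 → Fin N) ℂ) : Prop :=
  ∃ Y, IsInt (W3 v N) (W3 v N) Y ∧ X = Y.submatrix (e3 N) (e3 N)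

lemma good_one : Good v N 1 :=
  ⟨1, int_one _, (submatrix_one_equiv _).symm⟩

lemma good_mul {X Y : Matrix (Fin 3 → Fin N) (Fin 3 → Fin N) ℂ} (hX : Good v N X)
    (hY : Good v N Y) : Good v N (X * Y) := by
  obtain ⟨X', hX', rfl⟩ := hX
  obtain ⟨Y', hY', rfl⟩ := hY
  exact ⟨X' * Y', int_mul hX' hY', submatrix_mul_equiv _ _ _ _ _⟩

lemma good_prod (l : List (Matrix (Fin 3 → Fin N) (Fin 3 → Fin N) ℂ)) (h : ∀ X ∈ l, Good v N X) :
    Good v N l.prod := by
  induction l with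
  | nil => exact good_one
  | cons X l ih =>
    rw [List.prod_cons]
    exact good_mul (h X (List.mem_cons_self)) (ih fun Y hY => h Y (List.mem_cons_of_mem _ hY))

lemma good_gen (hv : v ≠ 0) {A : Matrix (Fin N × Fin N) (Fin N × Fin N) ℂ}
    (hA : IsInt (tens v (irr v N) (irr v N)) (tens v (irr v N) (irr v N)) A) (k : ℕ) :
    Good v N (gen A 3 k) := by
  rcases k with _ | _ | k
  · exact ⟨_, int_on12 hv hA, gen0 A⟩
  · exact ⟨_, int_on23 hA, gen1 A⟩
  · have : gen A 3 (k + 1 + 1) = 1 := by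
      ext s t
      simp only [gen]
      rw [dif_neg (by omega), Matrix.one_apply]
    rw [this]
    exact good_one

end three

/-! ### the theorem -/

lemma inv_comm {ι : Type} [Fintype ι] [DecidableEq ι] {A B X : Matrix ι ι ℂ} (h4 : B * A = 1)
    (h5 : A * B = 1) (h : A * X = X * A) : B * X = X * B := by
  calc B * X = B * (X * (A * B)) := by rw [h5, mul_one]
    _ = B * ((X * A) * B) := by rw [← mul_assoc X]
    _ = B * ((A * X) * B) := by rw [h]
    _ = (B * A) * (X * B) := by simp only [mul_assoc]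
    _ = X * B := by rw [h4, one_mul]

section main

variable {N : ℕ} {u : ℂ}

lemma int_cross (hu : Gen u) :
    IsInt (tens (u ^ 2) (irr (u ^ 2) N) (irr (u ^ 2) N))
      (tens (u ^ 2) (irr (u ^ 2) N) (irr (u ^ 2) N)) (crossP N (u ^ 2)) ∧
    IsInt (tens (u ^ 2) (irr (u ^ 2) N) (irr (u ^ 2) N))
      (tens (u ^ 2) (irr (u ^ 2) N) (irr (u ^ 2) N)) (crossN N (u ^ 2)) := by
  have hv : u ^ 2 ≠ 0 := pow_ne_zero 2 hu.1
  have hM := (Pool.Agent.H345J.taskMod (u ^ 2) hv).1 N
  obtain ⟨h1, h2⟩ := Pool.Agent.H559R3.J.taskCross u hu N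
  have h3 := Pool.Agent.H345J.taskInt u hu (Fin N) (Fin N) (irr (u ^ 2) N) (irr (u ^ 2) N) hM hM
  obtain ⟨h4, h5⟩ := Pool.Agent.H345J.taskInv u hu (Fin N) (Fin N) (irr (u ^ 2) N)
    (irr (u ^ 2) N) hM hM
  refine ⟨by rw [h1]; exact int_smul h3 _, ?_⟩
  rw [h2]
  refine int_smul ?_ _
  set A := Rh u (irr (u ^ 2) N) (irr (u ^ 2) N)
  set B := Rhi u (irr (u ^ 2) N) (irr (u ^ 2) N)
  refine ⟨inv_comm h4 h5 h3.e, inv_comm h4 h5 h3.f, ?_⟩
  · intro i j hij
    have h7 : B * (tens (u ^ 2) (irr (u ^ 2) N) (irr (u ^ 2) N)).K 2 1 =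
        (tens (u ^ 2) (irr (u ^ 2) N) (irr (u ^ 2) N)).K 2 1 * B :=
      inv_comm h4 h5 (int_K h3 2 1)
    have h8 := congrFun (congrFun h7 i) j
    unfold WM.K at h8
    rw [Matrix.mul_diagonal, Matrix.diagonal_mul, mul_comm] at h8
    have h9 := mul_right_cancel₀ hij h8
    rw [one_mul, one_mul] at h9
    have h10 : ((2 : ℝ) : ℂ) ^ (tens (u ^ 2) (irr (u ^ 2) N) (irr (u ^ 2) N)).wt j =
        ((2 : ℝ) : ℂ) ^ (tens (u ^ 2) (irr (u ^ 2) N) (irr (u ^ 2) N)).wt i := by
      push_cast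
      exact h9
    have h11 : (2 : ℝ) ^ (tens (u ^ 2) (irr (u ^ 2) N) (irr (u ^ 2) N)).wt j =
        (2 : ℝ) ^ (tens (u ^ 2) (irr (u ^ 2) N) (irr (u ^ 2) N)).wt i := by
      exact_mod_cast h10
    exact (zpow_right_injective₀ (by norm_num) (by norm_num) h11).symm

lemma int_belt (hu : Gen u) :
    IsInt (tens (u ^ 2) (irr (u ^ 2) N) (irr (u ^ 2) N))
      (tens (u ^ 2) (irr (u ^ 2) N) (irr (u ^ 2) N)) (belt N (u ^ 2)) := by
  have hv : u ^ 2 ≠ 0 := pow_ne_zero 2 hu.1
  have hT := Pool.Agent.H345J.taskMod (u ^ 2) hv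
  have hM := hT.1 N
  have hP := (int_cross (N := N) hu).1
  have hX := int_mul (int_on23 hP) (int_mul (int_on12 hv hP) (int_mul (int_on12 hv hP)
    (int_on23 hP)))
  have hX' := int_iso (iso_assoc hv (irr (u ^ 2) N) (irr (u ^ 2) N) (irr (u ^ 2) N)) hX
  exact Pool.Agent.H550R3.Jones.taskPtr550 (u ^ 2) hv (Fin N × Fin N) (Fin N) _ _
    (hT.2 _ _ _ _ hM hM) hM _ hX'

lemma int_vertex (hu : Gen u) (b : Bool) (a : ℤ) :
    IsInt (tens (u ^ 2) (irr (u ^ 2) N) (irr (u ^ 2) N))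
      (tens (u ^ 2) (irr (u ^ 2) N) (irr (u ^ 2) N)) (vertex N (u ^ 2) b a) := by
  unfold vertex
  refine int_mul ?_ ?_
  · split_ifs
    · exact int_belt hu
    · exact int_one _
  · split_ifs
    · exact int_pow (int_cross hu).1 _
    · exact int_pow (int_cross hu).2 _

lemma int_tangle (hu : Gen u) (t : Tr) :
    IsInt (tens (u ^ 2) (irr (u ^ 2) N) (irr (u ^ 2) N))
      (tens (u ^ 2) (irr (u ^ 2) N) (irr (u ^ 2) N)) (tangle N (u ^ 2) t) := by
  have hv : u ^ 2 ≠ 0 := pow_ne_zero 2 hu.1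
  induction t with
  | single b a => exact int_vertex hu b a
  | join t c iht ihc =>
    unfold tangle
    exact int_mul iht (int_rot (u ^ 2) hv hu.2 ihc)

/-- **SCH.** -/
theorem s_sch : S_SCH := by
  intro N u hu m ts
  have hv : u ^ 2 ≠ 0 := pow_ne_zero 2 hu.1
  have hT := Pool.Agent.H345J.taskMod (u ^ 2) hv
  have hM := hT.1 N
  have hrep : Good (u ^ 2) N (rep (crossP N (u ^ 2)) (crossN N (u ^ 2)) 3 (fullTwists m)) := by
    unfold rep
    refine good_prod _ fun X hX => ?_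
    obtain ⟨g, -, rfl⟩ := List.mem_map.1 hX
    refine good_gen hv ?_ _
    split_ifs
    · exact (int_cross hu).1
    · exact (int_cross hu).2
  have hts : Good (u ^ 2) N ((ts.map fun p => gen (tangle N (u ^ 2) p.1) 3 0 *
      gen (tangle N (u ^ 2) p.2) 3 1).prod) := by
    refine good_prod _ fun X hX => ?_
    obtain ⟨g, -, rfl⟩ := List.mem_map.1 hX
    exact good_mul (good_gen hv (int_tangle hu _) _) (good_gen hv (int_tangle hu _) _)
  obtain ⟨Y, hY, hXY⟩ := good_mul hrep hts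
  have hptr := Pool.Agent.H550R3.Jones.taskPtr550 (u ^ 2) hv (Fin N) (Fin N × Fin N) _ _ hM
    (hT.2 _ _ _ _ hM hM) Y hY
  have e : ringM m ts N (u ^ 2) = ptr (fun x => (u ^ 2) ^
      (tens (u ^ 2) (irr (u ^ 2) N) (irr (u ^ 2) N)).wt x) Y := by
    unfold ringM
    rw [hXY]
    ext i j
    simp only [tail, ptr]
    rw [Fintype.sum_prod_type, ← (finTwoArrowEquiv (Fin N)).symm.sum_comp, Fintype.sum_prod_type]
    refine Finset.sum_congr rfl fun a _ => Finset.sum_congr rfl fun b _ => ?_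
    rw [Fin.prod_univ_two]
    simp only [tens, irr, submatrix_apply]
    rw [zpow_add₀ hv]
    rfl
  rw [e]
  exact Pool.Agent.H973J.taskSchur u hu N _ hptr

end main

end Pool.Agent.N93.VV
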